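import Mathlib
import Pool.Agent.H.MP_30cdc8_co.C

set_option autoImplicit false

namespace Pool.Agent.Results.MP_30cdc8_co.Linear

open Finset

noncomputable def homDensity {a n : ℕ} (F : Finset (Finset (Fin a)))
    (H : Finset (Finset (Fin n))) : ℝ :=
  ((univ.filter fun φ : Fin a → Fin n => ∀ e ∈ F, e.image φ ∈ H).card : ℝ) / (n : ℝ) ^ a

def exponents (r : ℕ) {a : ℕ} (F : Finset (Finset (Fin a))) : Set ℝ :=
  {s | 0 ≤ s ∧ ∃ (n : ℕ) (H : Finset (Finset (Fin n))), 0 < n ∧ (∀ e ∈ H, e.card = r) ∧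
    homDensity F H = homDensity ({univ} : Finset (Finset (Fin r))) H ^ s ∧ 0 < homDensity F H}

theorem result : ∀ r : ℕ, 2 ≤ r → ∃ f : ℕ → ℕ,
    ∀ (Δ a : ℕ) (F : Finset (Finset (Fin a))),
      (∀ e ∈ F, e.card = r) →
      (∃ c : Fin a → Fin r, ∀ e ∈ F, ∀ i, (e.filter fun v => c v = i).card = 1) →
      (∀ v, (F.filter fun e => v ∈ e).card ≤ Δ) →
      ∀ s ∈ exponents r F, s ≤ (f Δ : ℝ) * (F.card : ℝ) := by
  intro r hr
  refine ⟨fun Δ => Pool.Agent.H.MP_30cdc8_co.K Δ r * (r + 1), ?_⟩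
  rintro Δ a F - hc hd s ⟨-, n, H, hn, hH, hs, h0⟩
  exact Pool.Agent.H.MP_30cdc8_co.bridge r hr Δ a F hc hd n hn H hH s _ _ rfl rfl hs h0

end Pool.Agent.Results.MP_30cdc8_co.Linear
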